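import Pool.Agent.N245.DS.St

/-!
# DS/ROLLE (project of helper245, helper247): Sturm's argument without boundary conditions
-/

set_option autoImplicit false

open Set Filter Topology

namespace Pool.Agent.N247.DS

theorem second (F F' : ℝ → ℝ) (c x : ℝ) (h1 : ∀ y, HasDerivAt F (F' y) y)
    (h2 : HasDerivAt F' c x) (hmax : IsLocalMax F x) : c ≤ 0 := by
  by_contra hc
  have hd : deriv F = F' := funext fun y => (h1 y).deriv
  have h3 : IsLocalMin F x := by
    apply isLocalMin_of_deriv_deriv_pos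
    · rw [hd, h2.deriv]; exact not_le.1 hc
    · exact hmax.deriv_eq_zero
    · exact (h1 x).continuousAt
  have h4 : F =ᶠ[𝓝 x] fun _ => F x := by
    filter_upwards [hmax, h3] with y hy hy'
    exact le_antisymm hy hy'
  have h5 : deriv F =ᶠ[𝓝 x] deriv fun _ => F x := h4.deriv
  have h6 := h5.deriv_eq
  rw [hd, h2.deriv] at h6
  simp at h6
  exact hc h6.le

theorem key_pos (p F F' G : ℝ → ℝ) (hp : ∀ x, 0 < p x) (h1 : ∀ x, HasDerivAt F (F' x) x)
    (h2 : ∀ x, HasDerivAt F' (p x * F x + G x) x) (z z' t : ℝ) (hz : z ≤ t) (hz' : t ≤ z')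
    (ht : 0 < F t) : ∃ q ∈ Icc z z', 0 < F t * F q ∧ (q ≠ z → q ≠ z' → F q * G q < 0) := by
  have hc : Continuous F := continuous_iff_continuousAt.2 fun x => (h1 x).continuousAt
  obtain ⟨q, hq, hmax⟩ := isCompact_Icc.exists_isMaxOn (s := Icc z z') ⟨t, hz, hz'⟩
    hc.continuousOn
  have h3 : F t ≤ F q := hmax ⟨hz, hz'⟩
  have h4 : 0 < F q := lt_of_lt_of_le ht h3
  refine ⟨q, hq, mul_pos ht h4, fun h5 h6 => ?_⟩
  have h7 : IsLocalMax F q := hmax.isLocalMax
    (Icc_mem_nhds (lt_of_le_of_ne hq.1 (Ne.symm h5)) (lt_of_le_of_ne hq.2 h6))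
  have h8 := second F F' _ q h1 (h2 q) h7
  have h9 : 0 < p q * F q := mul_pos (hp q) h4
  have h10 : G q < 0 := by linarith
  exact mul_neg_of_pos_of_neg h4 h10

theorem key (p F F' G : ℝ → ℝ) (hp : ∀ x, 0 < p x) (h1 : ∀ x, HasDerivAt F (F' x) x)
    (h2 : ∀ x, HasDerivAt F' (p x * F x + G x) x) (z z' t : ℝ) (hz : z ≤ t) (hz' : t ≤ z')
    (ht : F t ≠ 0) : ∃ q ∈ Icc z z', 0 < F t * F q ∧ (q ≠ z → q ≠ z' → F q * G q < 0) := by
  rcases lt_or_gt_of_ne ht with h | h
  · obtain ⟨q, hq, h3, h4⟩ := key_pos p (fun x => -F x) (fun x => -F' x) (fun x => -G x) hp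
      (fun x => (h1 x).fun_neg) (fun x => by
        have := (h2 x).fun_neg
        convert! this using 1
        ring) z z' t hz hz' (by linarith)
    refine ⟨q, hq, by nlinarith, fun h5 h6 => ?_⟩
    have := h4 h5 h6
    nlinarith
  · exact key_pos p F F' G hp h1 h2 z z' t hz hz' h

theorem sgn {A B C D : ℝ} (h1 : A * B < 0) (h2 : 0 < A * C) (h3 : 0 < B * D) : C * D < 0 := by
  by_contra h
  have h4 : 0 ≤ C * D := not_lt.1 h
  have h5 : 0 < (A * C) * (B * D) := mul_pos h2 h3
  have h6 : (A * B) * (C * D) ≤ 0 := mul_nonpos_of_nonpos_of_nonneg h1.le h4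
  nlinarith

theorem rolle : Pool.Agent.N245.DS.S_ROLLE := by
  classical
  intro a b p F F' G hG hpc hp h1 h2 M hM
  obtain ⟨t, ht1, ht2, ht3⟩ := hM
  have hc : Continuous F := continuous_iff_continuousAt.2 fun x => (h1 x).continuousAt
  rcases Nat.eq_zero_or_pos M with hM0 | hM0
  · subst hM0
    exact ⟨0, ⟨t, by simp, fun i hi => ht2 i hi, by simp⟩, Nat.zero_le _⟩
  have hζ : ∀ i, ∃ z, i < M → t i < z ∧ z < t (i + 1) ∧ F z = 0 := by
    intro i
    by_cases hi : i < M
    · have h3 := ht3 i hi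
      have h4 : (0 : ℝ) ∈ F '' Ioo (t i) (t (i + 1)) := by
        rcases mul_neg_iff.1 h3 with ⟨h5, h6⟩ | ⟨h5, h6⟩
        · exact intermediate_value_Ioo' (ht1 i hi).le hc.continuousOn ⟨h6, h5⟩
        · exact intermediate_value_Ioo (ht1 i hi).le hc.continuousOn ⟨h5, h6⟩
      obtain ⟨z, hz, hz0⟩ := h4
      exact ⟨z, fun _ => ⟨hz.1, hz.2, hz0⟩⟩
    · exact ⟨0, fun h => absurd h hi⟩
  choose ζ hζ using hζ
  have hFt : ∀ i ≤ M, F (t i) ≠ 0 := by
    intro i hi h0
    by_cases hi' : i < M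
    · have := ht3 i hi'
      rw [h0, zero_mul] at this
      exact lt_irrefl _ this
    · have h3 : i = M := by omega
      have := ht3 (i - 1) (by omega)
      rw [Nat.sub_add_cancel (by omega), h0, mul_zero] at this
      exact lt_irrefl _ this
  let lo : ℕ → ℝ := fun i => if i = 0 then a else ζ (i - 1)
  let up : ℕ → ℝ := fun i => if i < M then ζ i else b
  have hlo0 : lo 0 = a := if_pos rfl
  have hlos : ∀ i, lo (i + 1) = ζ i := fun i => by
    simp only [lo, if_neg (Nat.succ_ne_zero i), Nat.add_sub_cancel]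
  have hupM : up M = b := if_neg (lt_irrefl M)
  have hupl : ∀ i < M, up i = ζ i := fun i hi => if_pos hi
  have hlot : ∀ i ≤ M, a ≤ lo i ∧ lo i ≤ t i := by
    intro i hi
    rcases Nat.eq_zero_or_pos i with h | h
    · subst h
      rw [hlo0]
      exact ⟨le_rfl, (ht2 0 hi).1⟩
    · obtain ⟨j, rfl⟩ : ∃ j, i = j + 1 := ⟨i - 1, by omega⟩
      rw [hlos]
      obtain ⟨h3, h4, _⟩ := hζ j (by omega)
      exact ⟨(ht2 j (by omega)).1.trans h3.le, h4.le⟩
  have hupt : ∀ i ≤ M, t i ≤ up i ∧ up i ≤ b := by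
    intro i hi
    by_cases h : i < M
    · rw [hupl i h]
      obtain ⟨h3, h4, _⟩ := hζ i h
      exact ⟨h3.le, h4.le.trans (ht2 (i + 1) (by omega)).2⟩
    · have : i = M := by omega
      subst this
      rw [hupM]
      exact ⟨(ht2 i hi).2, le_rfl⟩
  have hP : ∀ i, ∃ q, i ≤ M → q ∈ Icc (lo i) (up i) ∧ 0 < F (t i) * F q ∧
      (q ≠ lo i → q ≠ up i → F q * G q < 0) := by
    intro i
    by_cases hi : i ≤ M
    · obtain ⟨q, hq1, hq2, hq3⟩ := key p F F' G hp h1 h2 (lo i) (up i) (t i) (hlot i hi).2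
        (hupt i hi).1 (hFt i hi)
      exact ⟨q, fun _ => ⟨hq1, hq2, hq3⟩⟩
    · exact ⟨0, fun h => absurd h hi⟩
  choose P hP using hP
  have hFP : ∀ i ≤ M, F (P i) ≠ 0 := by
    intro i hi h0
    have := (hP i hi).2.1
    rw [h0, mul_zero] at this
    exact lt_irrefl _ this
  have hPζ : ∀ i < M, P i < ζ i ∧ ζ i < P (i + 1) := by
    intro i hi
    have h0 := (hζ i hi).2.2
    constructor
    · refine lt_of_le_of_ne ?_ fun h => hFP i hi.le (by rw [h]; exact h0)
      rw [← hupl i hi]; exact (hP i hi.le).1.2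
    · refine lt_of_le_of_ne ?_ fun h => hFP (i + 1) hi (by rw [← h]; exact h0)
      rw [← hlos i]; exact (hP (i + 1) hi).1.1
  have hPab : ∀ i ≤ M, P i ∈ Icc a b := fun i hi =>
    ⟨(hlot i hi).1.trans (hP i hi).1.1, (hP i hi).1.2.trans (hupt i hi).2⟩
  have hneg : ∀ i < M, F (P i) * F (P (i + 1)) < 0 := fun i hi =>
    sgn (ht3 i hi) (hP i hi.le).2.1 (hP (i + 1) hi).2.1
  have hgood : ∀ i ≤ M, (i = 0 → F a * G a < 0) → (i = M → F b * G b < 0) →
      F (P i) * G (P i) < 0 := by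
    intro i hi h3 h4
    by_cases h5 : P i = lo i
    · rcases Nat.eq_zero_or_pos i with h | h
      · subst h
        rw [hlo0] at h5
        rw [h5]; exact h3 rfl
      · obtain ⟨j, rfl⟩ : ∃ j, i = j + 1 := ⟨i - 1, by omega⟩
        rw [hlos] at h5
        exact absurd h5 (hPζ j (by omega)).2.ne'
    by_cases h6 : P i = up i
    · by_cases h : i < M
      · rw [hupl i h] at h6
        exact absurd h6 (hPζ i h).1.ne
      · have h7 : i = M := by omega
        rw [h7, hupM] at h6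
        rw [h7, h6]; exact h4 h7
    exact (hP i hi).2.2 h5 h6
  set ea : ℕ := if F a * G a < 0 then 0 else 1 with hea
  set eb : ℕ := if F b * G b < 0 then 0 else 1 with heb
  have hea1 : ea ≤ 1 := by rw [hea]; split_ifs <;> omega
  have heb1 : eb ≤ 1 := by rw [heb]; split_ifs <;> omega
  have hea0 : ea = 0 → F a * G a < 0 := by
    intro h
    by_contra hcon
    rw [hea, if_neg hcon] at h
    omega
  have heb0 : eb = 0 → F b * G b < 0 := by
    intro h
    by_contra hcon
    rw [heb, if_neg hcon] at h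
    omega
  by_cases hle : ea + eb ≤ M
  · refine ⟨M - ea - eb, ⟨fun i => P (i + ea), fun i hi => ?_, fun i hi => ?_, fun i hi => ?_⟩,
      by omega⟩
    · have := hPζ (i + ea) (by omega)
      have h3 : i + 1 + ea = i + ea + 1 := by ring
      simp only [h3]
      exact this.1.trans this.2
    · exact hPab _ (by omega)
    · have h3 : i + 1 + ea = i + ea + 1 := by ring
      simp only [h3]
      have g1 := hgood (i + ea) (by omega) (fun h => hea0 (by omega)) (fun h => by omega)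
      have g2 := hgood (i + ea + 1) (by omega) (fun h => by omega) (fun h => heb0 (by omega))
      have g3 := hneg (i + ea) (by omega)
      by_contra hcon
      have h4 : 0 ≤ G (P (i + ea)) * G (P (i + ea + 1)) := not_lt.1 hcon
      have h5 : 0 < (F (P (i + ea)) * G (P (i + ea))) *
          (F (P (i + ea + 1)) * G (P (i + ea + 1))) := mul_pos_of_neg_of_neg g1 g2
      have h6 : (F (P (i + ea)) * F (P (i + ea + 1))) *
          (G (P (i + ea)) * G (P (i + ea + 1))) ≤ 0 := mul_nonpos_of_nonpos_of_nonneg g3.le h4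
      nlinarith
  · exact ⟨0, ⟨t, by simp, fun i hi => ht2 i (by omega), by simp⟩, by omega⟩

end Pool.Agent.N247.DS
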